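import Mathlib

/-!
Generalised Alexandroff duplicates.  For a map `r : D → K` the space `Dup r` is the set `K ⊕ D`
with the topology induced by the injection into `K × (D → Bool)` sending `k` to `(k, 0)` and `d`
to `(r d, indicator of d)`.  If every sequence of points `r d` converges along the hyperfilter, then
continuous functions on `Dup r` are exactly pairs (continuous function on `K`, function on `D`
vanishing at infinity), whatever `r` is.
-/

set_option autoImplicit false

open Set Filter Topology

namespace Pool.Agent.P.MP_41b9bf_gt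

variable {K D : Type}

open Classical in
/-- indicator function of a point -/
noncomputable def delta (d : D) : D → Bool := fun e => decide (e = d)

lemma delta_eq_true {d e : D} : delta d e = true ↔ e = d := by
  simp [delta]

lemma delta_eq_false {d e : D} : delta d e = false ↔ e ≠ d := by
  simp [delta]

/-- the underlying set of the duplicate -/
def Dup (_r : D → K) : Type := K ⊕ D

/-- the points of the base -/
def Dup.base (r : D → K) (k : K) : Dup r := Sum.inl k

/-- the added isolated points -/
def Dup.iso (r : D → K) (d : D) : Dup r := Sum.inr d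

/-- functions on the duplicate given by their two parts -/
def Dup.elim {β : Type} (r : D → K) (g : K → β) (h : D → β) : Dup r → β := Sum.elim g h

@[simp] lemma Dup.elim_base {β : Type} (r : D → K) (g : K → β) (h : D → β) (k : K) :
    Dup.elim r g h (Dup.base r k) = g k := rfl

@[simp] lemma Dup.elim_iso {β : Type} (r : D → K) (g : K → β) (h : D → β) (d : D) :
    Dup.elim r g h (Dup.iso r d) = h d := rfl

lemma Dup.cases {r : D → K} (y : Dup r) :
    (∃ k, y = Dup.base r k) ∨ (∃ d, y = Dup.iso r d) := by
  rcases y with k | d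
  · exact Or.inl ⟨k, rfl⟩
  · exact Or.inr ⟨d, rfl⟩

/-- the retraction onto the base -/
def Dup.proj (r : D → K) : Dup r → K := Dup.elim r id r

/-- the second coordinate -/
noncomputable def Dup.mark (r : D → K) : Dup r → (D → Bool) :=
  Dup.elim r (fun _ _ => false) delta

/-- the embedding defining the topology -/
noncomputable def Dup.emb (r : D → K) (y : Dup r) : K × (D → Bool) :=
  (Dup.proj r y, Dup.mark r y)

lemma Dup.emb_injective (r : D → K) : Function.Injective (Dup.emb r) := by
  intro a b hab
  have h1 : Dup.proj r a = Dup.proj r b := congrArg Prod.fst hab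
  have h2 : Dup.mark r a = Dup.mark r b := congrArg Prod.snd hab
  rcases Dup.cases a with ⟨k, rfl⟩ | ⟨d, rfl⟩ <;> rcases Dup.cases b with ⟨k', rfl⟩ | ⟨d', rfl⟩
  · have : k = k' := h1
    rw [this]
  · have h3 : false = delta d' d' := congrFun h2 d'
    have h4 : delta d' d' = true := delta_eq_true.2 rfl
    rw [h4] at h3; cases h3
  · have h3 : delta d d = false := congrFun h2 d
    have h4 : delta d d = true := delta_eq_true.2 rfl
    rw [h4] at h3; cases h3
  · have h3 : delta d d = delta d' d := congrFun h2 d
    have h4 : delta d d = true := delta_eq_true.2 rfl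
    rw [h4] at h3
    have : d = d' := delta_eq_true.1 h3.symm
    rw [this]

variable [TopologicalSpace K]

noncomputable instance Dup.topologicalSpace (r : D → K) : TopologicalSpace (Dup r) :=
  TopologicalSpace.induced (Dup.emb r) inferInstance

lemma Dup.isInducing_emb (r : D → K) : IsInducing (Dup.emb r) := ⟨rfl⟩

lemma Dup.isEmbedding_emb (r : D → K) : IsEmbedding (Dup.emb r) :=
  ⟨Dup.isInducing_emb r, Dup.emb_injective r⟩

lemma Dup.t35Space [T35Space K] (r : D → K) : T35Space (Dup r) :=
  (Dup.isEmbedding_emb r).t35Space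

lemma Dup.continuous_proj (r : D → K) : Continuous (Dup.proj r) :=
  continuous_fst.comp (Dup.isInducing_emb r).continuous

lemma Dup.continuous_mark (r : D → K) : Continuous (Dup.mark r) :=
  continuous_snd.comp (Dup.isInducing_emb r).continuous

lemma Dup.continuous_base (r : D → K) : Continuous (Dup.base r) := by
  rw [(Dup.isInducing_emb r).continuous_iff]
  exact continuous_id.prodMk continuous_const

lemma Dup.isOpen_mark (r : D → K) (d : D) (b : Bool) :
    IsOpen {y : Dup r | Dup.mark r y d = b} := by
  have h : Continuous (fun y : Dup r => Dup.mark r y d) :=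
    (continuous_apply d).comp (Dup.continuous_mark r)
  exact (isOpen_discrete {b}).preimage h

lemma Dup.isOpen_iso (r : D → K) (d : D) : IsOpen {Dup.iso r d} := by
  have : {Dup.iso r d} = {y : Dup r | Dup.mark r y d = true} := by
    ext y
    rcases Dup.cases y with ⟨k, rfl⟩ | ⟨e, rfl⟩
    · constructor
      · intro h; cases h
      · intro h; cases h
    · constructor
      · intro h
        have h' : e = d := Sum.inr.inj h
        exact delta_eq_true.2 h'.symm
      · intro h
        have h' : d = e := delta_eq_true.1 h
        rw [h']; rfl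
  rw [this]
  exact Dup.isOpen_mark r d true

/-- a function vanishing at infinity on `D`, extended by zero, is continuous -/
lemma Dup.continuous_elim_zero (r : D → K) {h : D → ℝ} (hh : Tendsto h cofinite (𝓝 0)) :
    Continuous (Dup.elim r (fun _ => (0 : ℝ)) h) := by
  rw [continuous_iff_continuousAt]
  intro y
  rcases Dup.cases y with ⟨k, rfl⟩ | ⟨d, rfl⟩
  · intro U hU
    have hU0 : U ∈ 𝓝 (0 : ℝ) := hU
    have hfin : {d | h d ∉ U}.Finite := by
      have := hh hU0
      simpa [Filter.mem_map, Filter.mem_cofinite, compl_def] using this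
    have hopen : IsOpen (⋂ d ∈ {d | h d ∉ U}, {y : Dup r | Dup.mark r y d = false}) :=
      hfin.isOpen_biInter fun d _ => Dup.isOpen_mark r d false
    have hmem : Dup.base r k ∈ ⋂ d ∈ {d | h d ∉ U}, {y : Dup r | Dup.mark r y d = false} := by
      simp only [mem_iInter]
      intro d _
      rfl
    refine mem_map.2 (mem_of_superset (hopen.mem_nhds hmem) ?_)
    intro y hy
    rcases Dup.cases y with ⟨k', rfl⟩ | ⟨e, rfl⟩
    · exact (mem_of_mem_nhds hU0 : (0 : ℝ) ∈ U)
    · by_contra hne
      have h1 : h e ∉ U := hne
      simp only [mem_iInter] at hy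
      have h2 : delta e e = false := hy e h1
      exact (delta_eq_false.1 h2) rfl
  · intro U hU
    refine mem_map.2 (mem_of_superset ((Dup.isOpen_iso r d).mem_nhds rfl) ?_)
    rintro y rfl
    exact (mem_of_mem_nhds hU : _ ∈ U)

/-- every sequence of points `r d` converges along the hyperfilter -/
def SeqGood (r : D → K) : Prop :=
  ∀ u : ℕ → D, ∃ k : K, Tendsto (fun n => r (u n)) (hyperfilter ℕ) (𝓝 k)

lemma tendsto_delta {u : ℕ → D} (hu : Function.Injective u) :
    Tendsto (fun n => delta (u n)) (hyperfilter ℕ) (𝓝 (fun _ => false)) := by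
  rw [tendsto_pi_nhds]
  intro e
  refine tendsto_const_nhds.congr' ?_
  have hfin : {n | u n = e}.Finite := (Set.subsingleton_singleton.preimage hu).finite
  have : ∀ᶠ n in cofinite, u n ≠ e := by
    rw [Filter.eventually_cofinite]
    simpa using hfin
  filter_upwards [this.filter_mono hyperfilter_le_cofinite] with n hn
  exact (delta_eq_false.2 (Ne.symm hn)).symm

/-- the jump of a continuous function vanishes at infinity -/
lemma Dup.tendsto_jump {r : D → K} (hr : SeqGood r) (f : C(Dup r, ℝ)) :
    Tendsto (fun d => f (Dup.iso r d) - f (Dup.base r (r d))) cofinite (𝓝 0) := by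
  rw [Metric.tendsto_nhds]
  intro ε hε
  rw [Filter.eventually_cofinite]
  by_contra hinf
  have hinf' : {d | ¬ dist (f (Dup.iso r d) - f (Dup.base r (r d))) 0 < ε}.Infinite := hinf
  let u : ℕ → D := fun n => (hinf'.natEmbedding _ n : D)
  have hu : Function.Injective u := fun a b hab =>
    (hinf'.natEmbedding _).injective (Subtype.ext hab)
  have huε : ∀ n, ¬ dist (f (Dup.iso r (u n)) - f (Dup.base r (r (u n)))) 0 < ε :=
    fun n => (hinf'.natEmbedding _ n).2
  obtain ⟨k, hk⟩ := hr u
  have h1 : Tendsto (fun n => Dup.iso r (u n)) (hyperfilter ℕ) (𝓝 (Dup.base r k)) := by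
    rw [(Dup.isInducing_emb r).tendsto_nhds_iff]
    exact hk.prodMk_nhds (tendsto_delta hu)
  have h2 : Tendsto (fun n => Dup.base r (r (u n))) (hyperfilter ℕ) (𝓝 (Dup.base r k)) :=
    ((Dup.continuous_base r).tendsto k).comp hk
  have h3 : Tendsto (fun n => f (Dup.iso r (u n)) - f (Dup.base r (r (u n)))) (hyperfilter ℕ)
      (𝓝 (f (Dup.base r k) - f (Dup.base r k))) :=
    ((f.continuous.tendsto _).comp h1).sub ((f.continuous.tendsto _).comp h2)
  rw [sub_self, Metric.tendsto_nhds] at h3
  obtain ⟨n, hn⟩ := (h3 ε hε).exists
  exact huε n hn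

/-- transfer of a continuous function from one duplicate to another -/
noncomputable def transfer {r : D → K} (hr : SeqGood r) (s : D → K) (f : C(Dup r, ℝ)) :
    C(Dup s, ℝ) where
  toFun y := f (Dup.base r (Dup.proj s y)) +
    Dup.elim s (fun _ => (0 : ℝ)) (fun d => f (Dup.iso r d) - f (Dup.base r (r d))) y
  continuous_toFun :=
    (f.continuous.comp ((Dup.continuous_base r).comp (Dup.continuous_proj s))).add
      (Dup.continuous_elim_zero s (Dup.tendsto_jump hr f))

lemma transfer_base {r : D → K} (hr : SeqGood r) (s : D → K) (f : C(Dup r, ℝ)) (k : K) :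
    transfer hr s f (Dup.base s k) = f (Dup.base r k) := by
  change f (Dup.base r k) + 0 = _
  rw [add_zero]

lemma transfer_iso {r : D → K} (hr : SeqGood r) (s : D → K) (f : C(Dup r, ℝ)) (d : D) :
    transfer hr s f (Dup.iso s d) =
      f (Dup.base r (s d)) + (f (Dup.iso r d) - f (Dup.base r (r d))) := rfl

lemma transfer_transfer {r s : D → K} (hr : SeqGood r) (hs : SeqGood s) (f : C(Dup r, ℝ)) :
    transfer hs r (transfer hr s f) = f := by
  ext y
  rcases Dup.cases y with ⟨k, rfl⟩ | ⟨d, rfl⟩
  · rw [transfer_base, transfer_base]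
  · rw [transfer_iso, transfer_base, transfer_iso, transfer_base]
    ring

/-- the linear bijection between the function spaces -/
noncomputable def transferEquiv {r s : D → K} (hr : SeqGood r) (hs : SeqGood s) :
    C(Dup r, ℝ) ≃ₗ[ℝ] C(Dup s, ℝ) where
  toFun := transfer hr s
  invFun := transfer hs r
  map_add' f g := by
    ext y
    rcases Dup.cases y with ⟨k, rfl⟩ | ⟨d, rfl⟩
    · simp only [transfer_base, ContinuousMap.add_apply]
    · simp only [transfer_iso, ContinuousMap.add_apply]
      ring
  map_smul' c f := by
    ext y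
    rcases Dup.cases y with ⟨k, rfl⟩ | ⟨d, rfl⟩
    · simp only [transfer_base, ContinuousMap.smul_apply, RingHom.id_apply]
    · simp only [transfer_iso, ContinuousMap.smul_apply, RingHom.id_apply, smul_eq_mul]
      ring
  left_inv f := transfer_transfer hr hs f
  right_inv f := transfer_transfer hs hr f

lemma continuous_transfer {r : D → K} (hr : SeqGood r) (s : D → K) :
    @Continuous (C(Dup r, ℝ)) (C(Dup s, ℝ))
      (TopologicalSpace.induced (fun f : C(Dup r, ℝ) => (f : Dup r → ℝ))
        (inferInstance : TopologicalSpace (Dup r → ℝ)))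
      (TopologicalSpace.induced (fun g : C(Dup s, ℝ) => (g : Dup s → ℝ))
        (inferInstance : TopologicalSpace (Dup s → ℝ)))
      (transfer hr s) := by
  let t : TopologicalSpace C(Dup r, ℝ) :=
    TopologicalSpace.induced (fun f : C(Dup r, ℝ) => (f : Dup r → ℝ)) inferInstance
  have hev : ∀ x : Dup r, @Continuous _ _ t _ (fun f : C(Dup r, ℝ) => f x) := fun x =>
    (continuous_apply x).comp continuous_induced_dom
  refine continuous_induced_rng.2 (continuous_pi fun y => ?_)
  rcases Dup.cases y with ⟨k, rfl⟩ | ⟨d, rfl⟩
  · simp only [Function.comp_def, transfer_base]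
    exact hev _
  · simp only [Function.comp_def, transfer_iso]
    exact (hev _).add ((hev _).sub (hev _))

/-- with a constant attaching map, a dense sigma-compact set of the base gives one upstairs -/
lemma Dup.kSeparable_const (k₀ : K) (hK : ∃ S : Set K, Dense S ∧ IsSigmaCompact S) :
    ∃ S : Set (Dup (fun _ : D => k₀)), Dense S ∧ IsSigmaCompact S := by
  obtain ⟨S, hS, hSc⟩ := hK
  set r : D → K := fun _ => k₀ with hr
  have hiso : Tendsto (Dup.iso r) cofinite (𝓝 (Dup.base r k₀)) := by
    rw [(Dup.isInducing_emb r).tendsto_nhds_iff]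
    refine Tendsto.prodMk_nhds (mx := fun _ : D => k₀) (my := fun d => delta d)
      (y := fun _ => false) tendsto_const_nhds ?_
    rw [tendsto_pi_nhds]
    intro e
    refine tendsto_const_nhds.congr' ?_
    have : ∀ᶠ d in cofinite, d ≠ e := by
      rw [Filter.eventually_cofinite]
      simp
    filter_upwards [this] with d hd
    exact (delta_eq_false.2 (Ne.symm hd)).symm
  have hc : IsCompact (insert (Dup.base r k₀) (range (Dup.iso r))) :=
    hiso.isCompact_insert_range_of_cofinite
  refine ⟨Dup.base r '' S ∪ insert (Dup.base r k₀) (range (Dup.iso r)), ?_, ?_⟩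
  · intro y
    rcases Dup.cases y with ⟨k, rfl⟩ | ⟨d, rfl⟩
    · refine closure_mono subset_union_left ?_
      exact image_closure_subset_closure_image (Dup.continuous_base r) ⟨k, hS k, rfl⟩
    · exact subset_closure (Or.inr (Or.inr ⟨d, rfl⟩))
  · have h1 : IsSigmaCompact (Dup.base r '' S) := hSc.image (Dup.continuous_base r)
    have h2 := hc.isSigmaCompact
    rw [union_eq_iUnion]
    refine isSigmaCompact_iUnion _ ?_
    rintro (_ | _)
    · exact h2
    · exact h1

/-- for the true duplicate, a dense sigma-compact set makes the base sigma-compact -/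
lemma Dup.sigmaCompact_of_dense {S : Set (Dup (id : K → K))} (hS : Dense S)
    (hSc : IsSigmaCompact S) : IsSigmaCompact (univ : Set K) := by
  have h1 := hSc.image (Dup.continuous_proj (id : K → K))
  have h2 : Dup.proj (id : K → K) '' S = univ := by
    refine eq_univ_of_forall fun k => ⟨Dup.iso id k, ?_, rfl⟩
    obtain ⟨y, hy1, hy2⟩ := hS.inter_open_nonempty _ (Dup.isOpen_iso id k) ⟨_, rfl⟩
    rw [mem_singleton_iff.1 hy1] at hy2
    exact hy2
  rwa [h2] at h1

end Pool.Agent.P.MP_41b9bf_gt
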