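import Pool.Agent.P.MP_41b9bf_gt.Dup

/-!
The Sigma-product of continuum many two-point spaces: all countably supported `ℝ → Bool`.
Every sequence in it converges along the hyperfilter, the finitely supported points form a dense
sigma-compact subset, and the space is not sigma-compact.
-/

set_option autoImplicit false

open Set Filter Topology

namespace Pool.Agent.P.MP_41b9bf_gt

/-- the Sigma-product -/
abbrev Sig : Type := {x : ℝ → Bool // {t | x t = true}.Countable}

lemma Sig.seqGood : SeqGood (id : Sig → Sig) := by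
  intro u
  obtain ⟨x, -, hx⟩ := isCompact_univ.ultrafilter_le_nhds
    ((hyperfilter ℕ).map (fun n => (u n).1)) (by simp)
  have hx' : Tendsto (fun n => (u n).1) (hyperfilter ℕ) (𝓝 x) := hx
  have hc : {t | x t = true}.Countable := by
    refine (countable_iUnion fun n => (u n).2).mono ?_
    intro t ht
    have h1 : Tendsto (fun n => (u n).1 t) (hyperfilter ℕ) (𝓝 (x t)) :=
      tendsto_pi_nhds.1 hx' t
    have h2 : ∀ᶠ n in (hyperfilter ℕ : Filter ℕ), (u n).1 t ∈ ({x t} : Set Bool) :=
      h1 ((isOpen_discrete _).mem_nhds rfl)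
    obtain ⟨n, hn⟩ := h2.exists
    refine mem_iUnion.2 ⟨n, ?_⟩
    have h3 : (u n).1 t = x t := hn
    have h4 : x t = true := ht
    exact h3.trans h4
  exact ⟨⟨x, hc⟩, tendsto_subtype_rng.2 hx'⟩

lemma seqGood_const {K D : Type} [TopologicalSpace K] (k₀ : K) : SeqGood (fun _ : D => k₀) :=
  fun _ => ⟨k₀, tendsto_const_nhds⟩

/-- points with at most `n` nonzero coordinates form a closed set of the cube -/
lemma isClosed_small (n : ℕ) :
    IsClosed {x : ℝ → Bool | ∀ F : Finset ℝ, (∀ t ∈ F, x t = true) → F.card ≤ n} := by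
  rw [← isOpen_compl_iff, isOpen_iff_mem_nhds]
  intro x hx
  simp only [mem_compl_iff, mem_ofPred_eq, not_forall] at hx
  obtain ⟨F, hF, hn⟩ := hx
  have hopen : IsOpen (⋂ t ∈ F, {y : ℝ → Bool | y t = true}) :=
    isOpen_biInter_finset fun t _ =>
      (isOpen_discrete ({true} : Set Bool)).preimage (continuous_apply (A := fun _ : ℝ => Bool) t)
  refine mem_of_superset (hopen.mem_nhds ?_) ?_
  · simpa using hF
  · intro y hy hy'
    exact hn (hy' F (by simpa using hy))

lemma finite_of_small {n : ℕ} {x : ℝ → Bool}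
    (hx : ∀ F : Finset ℝ, (∀ t ∈ F, x t = true) → F.card ≤ n) : {t | x t = true}.Finite := by
  by_contra h
  obtain ⟨F, hF, hc⟩ := Set.Infinite.exists_subset_card_eq h (n + 1)
  have := hx F (fun t ht => hF ht)
  omega

lemma Sig.kSeparable : ∃ S : Set Sig, Dense S ∧ IsSigmaCompact S := by
  classical
  refine ⟨⋃ n : ℕ, {x : Sig | ∀ F : Finset ℝ, (∀ t ∈ F, x.1 t = true) → F.card ≤ n}, ?_, ?_⟩
  · intro x
    rw [mem_closure_iff_nhds]
    intro U hU
    obtain ⟨V, hV, hVU⟩ := (mem_nhds_induced Subtype.val x U).1 hU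
    rw [nhds_pi, Filter.mem_pi] at hV
    obtain ⟨I, hI, W, hW, hWV⟩ := hV
    let y : ℝ → Bool := fun t => if t ∈ I then x.1 t else false
    have hyI : ∀ t, y t = true → t ∈ I := by
      intro t ht
      by_contra h
      simp [y, h] at ht
    refine ⟨⟨y, hI.countable.mono hyI⟩, hVU (hWV ?_), mem_iUnion.2 ⟨hI.toFinset.card, ?_⟩⟩
    · intro t ht
      have : y t = x.1 t := by simp [y, ht]
      change y t ∈ W t
      rw [this]
      exact mem_of_mem_nhds (hW t)
    · intro F hF
      refine Finset.card_le_card fun t ht => ?_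
      exact hI.mem_toFinset.2 (hyI t (hF t ht))
  · refine isSigmaCompact_iUnion_of_isCompact _ fun n => ?_
    rw [Subtype.isCompact_iff]
    have : Subtype.val '' {x : Sig | ∀ F : Finset ℝ, (∀ t ∈ F, x.1 t = true) → F.card ≤ n} =
        {x : ℝ → Bool | ∀ F : Finset ℝ, (∀ t ∈ F, x t = true) → F.card ≤ n} := by
      ext x
      constructor
      · rintro ⟨y, hy, rfl⟩
        exact hy
      · intro hx
        exact ⟨⟨x, (finite_of_small hx).countable⟩, hx, rfl⟩
    rw [this]
    exact (isClosed_small n).isCompact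

lemma Sig.not_sigmaCompact : ¬ IsSigmaCompact (univ : Set Sig) := by
  classical
  rintro ⟨C, hC, hU⟩
  have key : ∀ n, ∃ I : Set ℝ, I.Finite ∧ ∀ x ∈ C n, ∃ t ∈ I, x.1 t = false := by
    intro n
    have h1 : IsClosed (Subtype.val '' C n) := ((hC n).image continuous_subtype_val).isClosed
    have h2 : (fun _ : ℝ => true) ∈ (Subtype.val '' C n)ᶜ := by
      rintro ⟨x, -, hx⟩
      have h3 := x.2
      rw [hx] at h3
      simp only [ofPred_true] at h3
      exact Cardinal.not_countable_real h3
    have h4 := h1.isOpen_compl.mem_nhds h2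
    rw [nhds_pi, Filter.mem_pi] at h4
    obtain ⟨I, hI, W, hW, hWV⟩ := h4
    refine ⟨I, hI, fun x hx => ?_⟩
    by_contra hcon
    push Not at hcon
    refine hWV (a := x.1) ?_ ⟨x, hx, rfl⟩
    intro t ht
    have h5 : x.1 t = true := by simpa using hcon t ht
    rw [h5]
    exact mem_of_mem_nhds (hW t)
  choose I hI hIC using key
  let y : ℝ → Bool := fun t => decide (t ∈ ⋃ n, I n)
  have hy : {t | y t = true}.Countable := by
    refine (countable_iUnion fun n => (hI n).countable).mono ?_
    intro t ht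
    simpa [y] using ht
  have hmem : (⟨y, hy⟩ : Sig) ∈ ⋃ n, C n := by rw [hU]; exact mem_univ _
  obtain ⟨n, hn⟩ := mem_iUnion.1 hmem
  obtain ⟨t, ht, hf⟩ := hIC n _ hn
  have h6 : y t = true := by
    simp only [y, decide_eq_true_eq]
    exact mem_iUnion.2 ⟨n, ht⟩
  have h7 : y t = false := hf
  rw [h6] at h7
  cases h7

/-- the zero point of the Sigma-product -/
def Sig.zero : Sig := ⟨fun _ => false, by simp⟩

end Pool.Agent.P.MP_41b9bf_gt
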